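import Mathlib
import Pool.Agent.TH431.WP.Base

/-!
Siegel groups of a formed space in characteristic `p` are `p`-groups.
-/

set_option autoImplicit false

namespace Pool.Agent.TH55.WP

open Pool.Agent.TH431.WP

variable {F V : Type} [Field F] [AddCommGroup V] [Module F V]

theorem pow_formula (g : V ≃ₗ[F] V)
    (h3 : ∀ w, g (g (g w - w) - (g w - w)) = g (g w - w) - (g w - w)) (k : ℕ) (w : V) :
    (g ^ k) w = w + (k : F) • (g w - w) + ((k.choose 2 : ℕ) : F) • (g (g w - w) - (g w - w)) := by
  induction k with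
  | zero => simp
  | succ k ih =>
    rw [pow_succ', LinearEquiv.mul_apply, ih, map_add, map_add, map_smul, map_smul, h3]
    have e : (k + 1).choose 2 = k + k.choose 2 := by
      rw [Nat.choose_succ_succ' k 1, Nat.choose_one_right]
    rw [e]
    push_cast
    have e2 : g (g w - w) = (g (g w - w) - (g w - w)) + (g w - w) := by abel
    have e3 : g w = (g w - w) + w := by abel
    generalize hn2 : g (g w - w) - (g w - w) = n2 at *
    rw [e2]
    generalize hn1 : g w - w = n1 at *
    rw [e3]
    simp only [smul_add, add_smul, one_smul]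
    abel

theorem isPGroup_U (p : ℕ) [Fact p.Prime] [CharP F p] (Φ : FS F V) (G : Subgroup (V ≃ₗ[F] V))
    (hG : G ≤ Iso Φ) (z : V) : IsPGroup p (U Φ G z) := by
  rintro ⟨g, hg, hgz, hgw⟩
  refine ⟨2, ?_⟩
  apply Subtype.ext
  show g ^ p ^ 2 = 1
  have hiso := hG hg
  have hB : ∀ w, Φ.B z (g w - w) = 0 := by
    intro w
    have h1 := hiso.1 z w
    rw [hgz] at h1
    rw [map_sub, h1, sub_self]
  have h3 : ∀ w, g (g (g w - w) - (g w - w)) = g (g w - w) - (g w - w) := by
    intro w
    obtain ⟨c, hc⟩ := hgw (g w - w) (hB w)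
    have : g (g w - w) - (g w - w) = c • z := by rw [hc]; abel
    rw [this, map_smul, hgz]
  have hp : p.Prime := Fact.out
  have c1 : ((p ^ 2 : ℕ) : F) = 0 := by
    rw [CharP.cast_eq_zero_iff F p]
    exact dvd_pow_self p (by norm_num)
  have c2 : (((p ^ 2).choose 2 : ℕ) : F) = 0 := by
    rw [CharP.cast_eq_zero_iff F p]
    apply hp.dvd_choose_pow (by norm_num)
    have := hp.two_le
    nlinarith
  ext w
  rw [pow_formula g h3, c1, c2]
  simp

end Pool.Agent.TH55.WP
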